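import Pool.Agent.Y186.MS.Stm

/-! # Project MS (helper186), job MS-LOC: localized blocks by averaging over directions -/

set_option autoImplicit false

open Complex Metric Set Filter Topology
open scoped ComplexConjugate
open Pool.Agent.Results.MP_4c43cc_an.ShiftSet
open Pool.Agent.Y186.MS

namespace Pool.Agent.Y974.MS

lemma cd (T : Finset ℕ) (a : ℕ → ℂ) {w : ℂ} (hw : ‖w‖ < 1) (m : ℕ) :
    ContDiffAt ℂ m (fun z => pol T a (mob w z)) 0 := by
  have h := (pol_comp_diff T a hw).differentiableOn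
  have h2 : AnalyticAt ℂ (fun z => pol T a (mob w z)) 0 :=
    h.analyticAt (ball_mem_nhds 0 one_pos)
  exact h2.contDiffAt

lemma pol_add (T T' : Finset ℕ) (a a' : ℕ → ℂ) (hd : Disjoint T T') (z : ℂ) :
    pol (T ∪ T') (fun n => if n ∈ T' then a' n else a n) z = pol T a z + pol T' a' z := by
  unfold pol
  rw [Finset.sum_union hd]
  congr 1
  · refine Finset.sum_congr rfl (fun n hn => ?_)
    beta_reduce
    rw [if_neg (Finset.disjoint_left.mp hd hn)]
  · refine Finset.sum_congr rfl (fun n hn => ?_)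
    beta_reduce
    rw [if_pos hn]

lemma cf_add (T T' : Finset ℕ) (a a' : ℕ → ℂ) (hd : Disjoint T T') {w : ℂ} (hw : ‖w‖ < 1) (m : ℕ) :
    cf (pol (T ∪ T') (fun n => if n ∈ T' then a' n else a n)) w m =
      cf (pol T a) w m + cf (pol T' a') w m := by
  unfold cf taylorCoeff
  have e : (fun z => pol (T ∪ T') (fun n => if n ∈ T' then a' n else a n) (mob w z)) =
      (fun z => pol T a (mob w z)) + (fun z => pol T' a' (mob w z)) := by
    funext z
    rw [Pi.add_apply]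
    exact pol_add T T' a a' hd (mob w z)
  rw [e, iteratedDeriv_add (cd T a hw m) (cd T' a' hw m), add_div]

lemma cf_smul (T : Finset ℕ) (a : ℕ → ℂ) (c : ℂ) {w : ℂ} (m : ℕ) :
    cf (pol T (fun n => c * a n)) w m = c * cf (pol T a) w m := by
  unfold cf taylorCoeff
  have e : (fun z => pol T (fun n => c * a n) (mob w z)) =
      (fun z => c * pol T a (mob w z)) := by
    funext z
    unfold pol
    rw [Finset.mul_sum]
    refine Finset.sum_congr rfl (fun n _ => ?_)
    ring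
  rw [e, iteratedDeriv_const_mul_field, mul_div_assoc]

lemma cf_empty (a : ℕ → ℂ) (w : ℂ) (m : ℕ) : cf (pol ∅ a) w m = 0 := by
  have h := cf_smul ∅ a 0 (w := w) m
  rw [zero_mul] at h
  rw [← h]
  unfold cf
  congr 1

/-- the directions -/
noncomputable def dr (l : ℕ) : ℂ := (1 + (l : ℂ) * I) / ((Real.sqrt (1 + (l : ℝ) ^ 2) : ℝ) : ℂ)

lemma nrm_one (l : ℕ) : ‖(1 + (l : ℂ) * I)‖ = Real.sqrt (1 + (l : ℝ) ^ 2) := by
  have e : (1 + (l : ℂ) * I) = ((1 : ℝ) : ℂ) + ((l : ℝ) : ℂ) * I := by push_cast; rfl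
  rw [e, Complex.norm_add_mul_I]
  norm_num

lemma dr_norm (l : ℕ) : ‖dr l‖ = 1 := by
  unfold dr
  have h : (0 : ℝ) < Real.sqrt (1 + (l : ℝ) ^ 2) := Real.sqrt_pos.mpr (by positivity)
  rw [norm_div, nrm_one, Complex.norm_real, Real.norm_of_nonneg h.le, div_self h.ne']

lemma dr_im (l l' : ℕ) : (dr l * conj (dr l')).im =
    ((l : ℝ) - l') / (Real.sqrt (1 + (l : ℝ) ^ 2) * Real.sqrt (1 + (l' : ℝ) ^ 2)) := by
  unfold dr
  have e : (1 + (l : ℂ) * I) / ((Real.sqrt (1 + (l : ℝ) ^ 2) : ℝ) : ℂ) *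
      conj ((1 + (l' : ℂ) * I) / ((Real.sqrt (1 + (l' : ℝ) ^ 2) : ℝ) : ℂ)) =
      ((1 + (l : ℂ) * I) * (1 - (l' : ℂ) * I)) /
        ((Real.sqrt (1 + (l : ℝ) ^ 2) * Real.sqrt (1 + (l' : ℝ) ^ 2) : ℝ) : ℂ) := by
    rw [map_div₀, map_add, map_mul, Complex.conj_I, Complex.conj_ofReal, map_one, Complex.conj_natCast]
    push_cast
    rw [div_mul_div_comm]
    ring
  rw [e, Complex.div_ofReal_im]
  congr 1
  simp [Complex.add_im, Complex.mul_im]
  ring

lemma dr_sep {N l l' : ℕ} (hl : l < N) (hl' : l' < N) (hne : l ≠ l') :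
    1 / (1 + (N : ℝ) ^ 2) ≤ |(dr l * conj (dr l')).im| := by
  rw [dr_im, abs_div]
  have h1 : (1 : ℝ) ≤ |(l : ℝ) - l'| := by
    rcases lt_or_gt_of_ne hne with h | h
    · have h2 : (l : ℝ) + 1 ≤ l' := by exact_mod_cast h
      rw [abs_of_nonpos (by linarith)]; linarith
    · have h2 : (l' : ℝ) + 1 ≤ l := by exact_mod_cast h
      rw [abs_of_nonneg (by linarith)]; linarith
  have hN : (0 : ℝ) < 1 + (N : ℝ) ^ 2 := by positivity
  have a1 : (0 : ℝ) < Real.sqrt (1 + (l : ℝ) ^ 2) := Real.sqrt_pos.mpr (by positivity)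
  have a2 : (0 : ℝ) < Real.sqrt (1 + (l' : ℝ) ^ 2) := Real.sqrt_pos.mpr (by positivity)
  have b1 : Real.sqrt (1 + (l : ℝ) ^ 2) ≤ Real.sqrt (1 + (N : ℝ) ^ 2) := by
    apply Real.sqrt_le_sqrt
    have : (l : ℝ) ≤ N := by exact_mod_cast hl.le
    nlinarith [(Nat.cast_nonneg l : (0 : ℝ) ≤ l)]
  have b2 : Real.sqrt (1 + (l' : ℝ) ^ 2) ≤ Real.sqrt (1 + (N : ℝ) ^ 2) := by
    apply Real.sqrt_le_sqrt
    have : (l' : ℝ) ≤ N := by exact_mod_cast hl'.le
    nlinarith [(Nat.cast_nonneg l' : (0 : ℝ) ≤ l')]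
  have h3 : Real.sqrt (1 + (l : ℝ) ^ 2) * Real.sqrt (1 + (l' : ℝ) ^ 2) ≤ 1 + (N : ℝ) ^ 2 := by
    calc _ ≤ Real.sqrt (1 + (N : ℝ) ^ 2) * Real.sqrt (1 + (N : ℝ) ^ 2) :=
          mul_le_mul b1 b2 a2.le (Real.sqrt_nonneg _)
      _ = _ := Real.mul_self_sqrt hN.le
  rw [abs_of_pos (mul_pos a1 a2)]
  exact div_le_div₀ (by positivity) h1 (mul_pos a1 a2) h3

/-- at most one exceptional direction -/
lemma exc {w c c' : ℂ} {ε ρ s : ℝ} (hρ : 0 < ρ) (hw : ρ ≤ ‖w‖) (hc : ‖c‖ = 1) (hc' : ‖c'‖ = 1)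
    (hs : s ≤ |(c * conj c').im|) (hε : 2 * ε ≤ ρ * s)
    (h1 : |(w * c).im| < ε) (h2 : |(w * c').im| < ε) : False := by
  have hwp : 0 < ‖w‖ := hρ.trans_le hw
  have e1 : (w * c) * conj (w * c') = ((‖w‖ ^ 2 : ℝ) : ℂ) * (c * conj c') := by
    have : w * conj w = ((‖w‖ ^ 2 : ℝ) : ℂ) := by
      rw [Complex.mul_conj, Complex.normSq_eq_norm_sq]
    rw [map_mul, ← this]; ring
  have e2 : ((w * c) * conj (w * c')).im = ‖w‖ ^ 2 * (c * conj c').im := by
    rw [e1, Complex.im_ofReal_mul]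
  have e3 : |((w * c) * conj (w * c')).im| ≤ ‖w‖ * |(w * c).im| + ‖w‖ * |(w * c').im| := by
    have e4 : ((w * c) * conj (w * c')).im = (w * c).im * (w * c').re - (w * c).re * (w * c').im := by
      rw [Complex.mul_im, Complex.conj_re, Complex.conj_im]; ring
    have n1 : |(w * c').re| ≤ ‖w‖ := by
      have := Complex.abs_re_le_norm (w * c')
      rwa [norm_mul, hc', mul_one] at this
    have n2 : |(w * c).re| ≤ ‖w‖ := by
      have := Complex.abs_re_le_norm (w * c)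
      rwa [norm_mul, hc, mul_one] at this
    rw [e4]
    calc _ ≤ |(w * c).im * (w * c').re| + |(w * c).re * (w * c').im| := abs_sub _ _
      _ = |(w * c').re| * |(w * c).im| + |(w * c).re| * |(w * c').im| := by
        rw [abs_mul, abs_mul]; ring
      _ ≤ _ := add_le_add (mul_le_mul_of_nonneg_right n1 (abs_nonneg _))
        (mul_le_mul_of_nonneg_right n2 (abs_nonneg _))
  rw [e2, abs_mul, abs_of_pos (by positivity)] at e3
  have h3 : ‖w‖ * (‖w‖ * |(c * conj c').im|) < ‖w‖ * (2 * ε) := by nlinarith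
  have h4 : ‖w‖ * |(c * conj c').im| < 2 * ε := lt_of_mul_lt_mul_left h3 hwp.le
  have h5 : 0 ≤ |(c * conj c').im| := abs_nonneg _
  have h6 : ρ * s ≤ ‖w‖ * |(c * conj c').im| := by
    calc ρ * s ≤ ρ * |(c * conj c').im| := mul_le_mul_of_nonneg_left hs hρ.le
      _ ≤ _ := mul_le_mul_of_nonneg_right hw h5
  linarith

/-- the family of directions -/
lemma fam (h : S_KEY2) {ε : ℝ} (hε : 0 < ε) (hε1 : ε < 1) (n0 : ℕ) : ∀ N : ℕ,
    ∃ (T : Finset ℕ) (a : ℕ → ℂ), (∀ n ∈ T, n0 ≤ n) ∧ ∑ n ∈ T, ‖a n‖ = N ∧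
      ∀ w : ℂ, ‖w‖ < 1 → ‖w‖ ≤ 1 - ε → ∀ S : Finset ℕ, ∑ m ∈ S, ‖cf (pol T a) w m‖ ≤
        ∑ l ∈ Finset.range N, (if ε ≤ |(w * dr l).im| then ε else 30 / (1 - ‖w‖) ^ 2) := by
  intro N
  induction N with
  | zero =>
    refine ⟨∅, fun _ => 0, by simp, by simp, fun w _ _ S => ?_⟩
    simp [cf_empty]
  | succ N ih =>
    obtain ⟨T, a, hT, ha, hb⟩ := ih
    obtain ⟨T', a', hT', ha', hb1, hb2⟩ := h ε hε hε1 (dr N) (dr_norm N) (max n0 (T.sup id + 1))
    have hd : Disjoint T T' := by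
      rw [Finset.disjoint_left]
      intro n hn hn'
      have h1 := hT' n hn'
      have h2 : n ≤ T.sup id := Finset.le_sup (f := id) hn
      have h3 := le_max_right n0 (T.sup id + 1)
      omega
    refine ⟨T ∪ T', fun n => if n ∈ T' then a' n else a n, ?_, ?_, ?_⟩
    · intro n hn
      rw [Finset.mem_union] at hn
      rcases hn with hn | hn
      · exact hT n hn
      · exact (le_max_left _ _).trans (hT' n hn)
    · rw [Finset.sum_union hd]
      push_cast
      rw [← ha, ← ha']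
      congr 1
      · refine Finset.sum_congr rfl (fun n hn => ?_)
        rw [if_neg (Finset.disjoint_left.mp hd hn)]
      · refine Finset.sum_congr rfl (fun n hn => ?_)
        rw [if_pos hn]
    · intro w hw1 hw S
      rw [Finset.sum_range_succ]
      calc _ ≤ ∑ m ∈ S, (‖cf (pol T a) w m‖ + ‖cf (pol T' a') w m‖) := by
            refine Finset.sum_le_sum (fun m _ => ?_)
            rw [cf_add T T' a a' hd hw1]
            exact norm_add_le _ _
        _ = _ := Finset.sum_add_distrib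
        _ ≤ _ := by
            refine add_le_add (hb w hw1 hw S) ?_
            split_ifs with hc
            · exact hb2 w hw hc S
            · exact hb1 w hw1 S

theorem t_LOC (h : S_KEY2) : S_LOC := by
  intro δ ρ η hδ hρ hη n0
  obtain ⟨N', hN'⟩ := exists_nat_ge (30 / η ^ 2 / (δ / 2))
  set N : ℕ := N' + 1 with hNdef
  have hNpos : (0 : ℝ) < N := by rw [hNdef]; positivity
  have hC : 0 < 30 / η ^ 2 := by positivity
  have hCN : 30 / η ^ 2 ≤ δ / 2 * N := by
    have h1 : 30 / η ^ 2 / (δ / 2) ≤ N := by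
      refine hN'.trans ?_
      rw [hNdef]; push_cast; linarith
    rw [div_le_iff₀ (by positivity)] at h1
    linarith
  set s : ℝ := 1 / (1 + (N : ℝ) ^ 2) with hs
  have hspos : 0 < s := by rw [hs]; positivity
  obtain ⟨ε, hε, hε1, hεη, hεδ, hεs⟩ : ∃ ε : ℝ, 0 < ε ∧ ε < 1 ∧ ε ≤ η ∧ ε ≤ δ / 2 ∧
      2 * ε ≤ ρ * s := by
    refine ⟨min (min (1 / 2) η) (min (δ / 2) (ρ * s / 2)), by positivity, ?_, ?_, ?_, ?_⟩
    · exact ((min_le_left _ _).trans (min_le_left _ _)).trans_lt (by norm_num)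
    · exact (min_le_left _ _).trans (min_le_right _ _)
    · exact (min_le_right _ _).trans (min_le_left _ _)
    · have := (min_le_right (min (1 / 2) η) (min (δ / 2) (ρ * s / 2))).trans (min_le_right _ _)
      linarith
  obtain ⟨T, a, hT, ha, hb⟩ := fam h hε hε1 n0 N
  refine ⟨T, fun n => ((1 / (N : ℝ) : ℝ) : ℂ) * a n, hT, ?_, ?_⟩
  · have e : ∀ n ∈ T, ‖((1 / (N : ℝ) : ℝ) : ℂ) * a n‖ = 1 / (N : ℝ) * ‖a n‖ := by
      intro n _
      rw [norm_mul, Complex.norm_real, Real.norm_of_nonneg (by positivity)]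
    rw [Finset.sum_congr rfl e, ← Finset.mul_sum, ha]
    field_simp
  · intro w hw1 hw2 S
    have hw : ‖w‖ < 1 := by linarith
    have hwε : ‖w‖ ≤ 1 - ε := by linarith
    have hbound : 30 / (1 - ‖w‖) ^ 2 ≤ 30 / η ^ 2 := by
      apply div_le_div_of_nonneg_left (by norm_num) (by positivity)
      apply pow_le_pow_left₀ hη.le
      linarith
    have hsum : ∑ l ∈ Finset.range N,
        (if ε ≤ |(w * dr l).im| then ε else 30 / (1 - ‖w‖) ^ 2) ≤ N * ε + 30 / η ^ 2 := by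
      by_cases hex : ∃ l0, l0 < N ∧ |(w * dr l0).im| < ε
      · obtain ⟨l0, hl0, hl1⟩ := hex
        have hle : ∀ l ∈ Finset.range N,
            (if ε ≤ |(w * dr l).im| then ε else 30 / (1 - ‖w‖) ^ 2) ≤
              ε + (if l = l0 then 30 / η ^ 2 else 0) := by
          intro l hl
          rw [Finset.mem_range] at hl
          split_ifs with q1 q2 q2
          · linarith
          · linarith
          · linarith
          · exfalso
            push Not at q1
            exact exc hρ hw1 (dr_norm l) (dr_norm l0) (dr_sep hl hl0 q2) (by rw [← hs]; exact hεs) q1 hl1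
        refine (Finset.sum_le_sum hle).trans ?_
        rw [Finset.sum_add_distrib, Finset.sum_ite_eq' (Finset.range N) l0,
          if_pos (Finset.mem_range.mpr hl0)]
        simp
      · push Not at hex
        have hle : ∀ l ∈ Finset.range N,
            (if ε ≤ |(w * dr l).im| then ε else 30 / (1 - ‖w‖) ^ 2) ≤ ε := by
          intro l hl
          rw [if_pos (hex l (Finset.mem_range.mp hl))]
        refine (Finset.sum_le_sum hle).trans ?_
        rw [Finset.sum_const, Finset.card_range, nsmul_eq_mul]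
        linarith
    have e : ∀ m ∈ S, ‖cf (pol T (fun n => ((1 / (N : ℝ) : ℝ) : ℂ) * a n)) w m‖ =
        1 / (N : ℝ) * ‖cf (pol T a) w m‖ := by
      intro m _
      rw [cf_smul, norm_mul, Complex.norm_real, Real.norm_of_nonneg (by positivity)]
    rw [Finset.sum_congr rfl e, ← Finset.mul_sum]
    have h1 := (hb w hw hwε S).trans hsum
    calc 1 / (N : ℝ) * ∑ m ∈ S, ‖cf (pol T a) w m‖ ≤ 1 / (N : ℝ) * (N * ε + 30 / η ^ 2) :=
          mul_le_mul_of_nonneg_left h1 (by positivity)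
      _ ≤ 1 / (N : ℝ) * (N * (δ / 2) + δ / 2 * N) := by
          apply mul_le_mul_of_nonneg_left _ (by positivity)
          nlinarith
      _ = δ := by field_simp; ring

end Pool.Agent.Y974.MS
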